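import Pool.Agent.H741.RS.Stm

set_option autoImplicit false
open scoped ComplexConjugate

namespace Pool.Agent.H729.RS
open Pool.Agent.H741.RS

theorem hp_self {n : ℕ} (z : V n) : hp z z = ((‖z‖ ^ 2 : ℝ) : ℂ) := by
  unfold hp
  rw [inner_self_eq_norm_sq_to_K]
  push_cast
  rfl

theorem hp_toLp {N : ℕ} (a b : Fin N → ℂ) :
    hp (WithLp.toLp 2 a : V N) (WithLp.toLp 2 b) = ∑ i, a i * conj (b i) := by
  unfold hp
  rw [PiLp.inner_apply]
  apply Finset.sum_congr rfl
  intro i _
  simp [RCLike.inner_apply]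

theorem ev_one {n : ℕ} (z : V n) : ev (1 : MvPolynomial (Fin n) ℂ) z = 1 := by
  simp [ev]

theorem sum_norm {n N : ℕ} (p : Fin N → MvPolynomial (Fin n) ℂ) (u : V n → V n → ℂ)
    (hk : ∀ z w, ∑ i, ev (p i) z * conj (ev (p i) w) = 1 - (1 - hp z w) * u z w) (z : V n) :
    ∑ i, ‖ev (p i) z‖ ^ 2 = 1 - (1 - ‖z‖ ^ 2) * (u z z).re := by
  have h := congrArg Complex.re (hk z z)
  rw [hp_self] at h
  have h1 : ∀ i, ev (p i) z * conj (ev (p i) z) = ((‖ev (p i) z‖ ^ 2 : ℝ) : ℂ) := by
    intro i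
    rw [Complex.mul_conj, Complex.normSq_eq_norm_sq]
  rw [Finset.sum_congr rfl (fun i _ => h1 i), ← Complex.ofReal_sum, Complex.ofReal_re] at h
  rw [h]
  have h2 : (1 : ℂ) - ((‖z‖ ^ 2 : ℝ) : ℂ) = ((1 - ‖z‖ ^ 2 : ℝ) : ℂ) := by push_cast; ring
  rw [h2, Complex.sub_re, Complex.re_ofReal_mul, Complex.one_re]

/-- The statement `S_MKF`. -/
theorem t_MKF : S_MKF := by
  intro n N k p u hdeg hex hk hpos
  refine ⟨{ p := p
            q := 1
            lowest := fun r hr _ => isUnit_of_dvd_one hr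
            q_ne := fun z _ => by rw [ev_one]; exact one_ne_zero
            sphere := fun z hz => ?_
            maps := fun z hz => ?_ }, rfl, rfl, ?_, ?_⟩
  · rw [sum_norm p u hk z, ev_one, hz]
    simp
  · rw [sum_norm p u hk z, ev_one]
    have h0 : 0 < (u z z).re := hpos z hz
    have h1 : ‖z‖ ^ 2 < 1 := by
      have := norm_nonneg z
      nlinarith
    have h2 : 0 < (1 - ‖z‖ ^ 2) * (u z z).re := mul_pos (by linarith) h0
    simp
    linarith
  · unfold RSM.deg
    simp only [MvPolynomial.totalDegree_one]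
    apply le_antisymm
    · apply max_le (Nat.zero_le _)
      exact Finset.sup_le fun i _ => hdeg i
    · obtain ⟨i, hi⟩ := hex
      apply le_max_of_le_right
      rw [← hi]
      exact Finset.le_sup (f := fun i => (p i).totalDegree) (Finset.mem_univ i)
  · intro z w
    unfold J RSM.F
    simp only [ev_one, map_one, mul_one]
    rw [hp_toLp, hk z w]
    ring

end Pool.Agent.H729.RS
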